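import Pool.Agent.Helper94.UP.Sheet2

set_option autoImplicit false

namespace Pool.Agent.Helper94.UP

open TopologicalSpace

theorem stASP.{u} (h1 : ST_ASD.{u}) : ST_ASP.{u} := by
  intro X _ _ _ _ b hb h01 hb0 hb1
  have hU : IsOpen {x : X | 0 < b x} := isOpen_lt continuous_const hb.continuous
  have hd : ContDiffOn ℝ 1 (fun x => (b x)⁻¹) {x : X | 0 < b x} := by
    apply hb.contDiffOn.inv
    intro x hx
    exact (ne_of_gt hx)
  have hc : ContinuousOn (fderiv ℝ (fun x => (b x)⁻¹)) {x : X | 0 < b x} :=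
    hd.continuousOn_fderiv_of_isOpen hU le_rfl
  have hs : IsSeparable ((fderiv ℝ (fun x => (b x)⁻¹)) '' {x : X | 0 < b x}) :=
    hc.isSeparable_image (IsSeparable.of_separableSpace _)
  have hcl : closure ((fderiv ℝ (fun x => (b x)⁻¹)) '' {x : X | 0 < b x}) = Set.univ := by
    apply Set.eq_univ_of_forall
    intro g
    rw [Metric.mem_closure_iff]
    intro ε hε
    obtain ⟨v, hv, hv2⟩ := h1 b hb h01 hb0 hb1 g (ε / 2) (by linarith)
    refine ⟨_, ⟨v, hv, rfl⟩, ?_⟩
    rw [dist_comm, dist_eq_norm]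
    exact lt_of_le_of_lt hv2 (by linarith)
  rw [← isSeparable_univ_iff, ← hcl]
  exact hs.closure

end Pool.Agent.Helper94.UP
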